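import Pool.Agent.Helper26.LN6.Defs

/-!
# LN6 leaf C (MP_730da0_ag): the chi formulas (sum rules)

`O` is a finite set of good pairs, `chi g = ∑ p ∈ O, W.v g p.1 p.2` is a homomorphism on the stabiliser of `O`, and
`lam (m+1) = s m * lam m * s m`, all `s i` in the stabiliser have the same `chi` (braid relation).
-/

open Finset

namespace LN6
namespace Chi

variable {k : ℕ} {Γ F : Type} [Group Γ] [MulAction Γ F]

/-- The stabiliser of a finite set of pairs. -/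
def stb (O : Finset (F × F)) : Subgroup Γ where
  carrier := {g | ∀ p ∈ O, g • p ∈ O}
  mul_mem' := by
    intro g h hg hh p hp
    rw [mul_smul]
    exact hg _ (hh p hp)
  one_mem' := by
    intro p hp
    rwa [one_smul]
  inv_mem' := by
    classical
    intro g hg p hp
    have hinj : Function.Injective fun q : F × F => g • q := MulAction.injective g
    have himg : O.image (fun q : F × F => g • q) = O := by
      apply Finset.eq_of_subset_of_card_le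
      · intro y hy
        obtain ⟨x, hx, rfl⟩ := Finset.mem_image.1 hy
        exact hg x hx
      · rw [Finset.card_image_of_injective _ hinj]
    rw [← himg] at hp
    obtain ⟨q, hq, rfl⟩ := Finset.mem_image.1 hp
    change g⁻¹ • g • q ∈ O
    rwa [inv_smul_smul]

theorem mem_stb {O : Finset (F × F)} {g : Γ} : g ∈ stb (Γ := Γ) O ↔ ∀ p ∈ O, g • p ∈ O := Iff.rfl

/-- The sum of the windings over `O`. -/
noncomputable def chi (W : WSys k Γ F) (O : Finset (F × F)) (g : Γ) : ℝ := ∑ p ∈ O, W.v g p.1 p.2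

/-- All pairs of `O` are good. -/
def Gd (W : WSys k Γ F) (O : Finset (F × F)) : Prop := ∀ p ∈ O, W.R p.1 p.2 ∧ p.1 ≠ p.2

variable {W : WSys k Γ F} {O : Finset (F × F)}

theorem chi_mul (hO : Gd W O) {g h : Γ} (hg : g ∈ stb (Γ := Γ) O) (hh : h ∈ stb (Γ := Γ) O) :
    chi W O (g * h) = chi W O g + chi W O h := W.v_sum O g h hO hg hh

theorem chi_one (hO : Gd W O) : chi W O 1 = 0 := by
  have h := chi_mul hO (one_mem (stb (Γ := Γ) O)) (one_mem (stb (Γ := Γ) O))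
  rw [mul_one] at h
  linarith

theorem chi_inv (hO : Gd W O) {g : Γ} (hg : g ∈ stb (Γ := Γ) O) : chi W O g⁻¹ = - chi W O g := by
  have h := chi_mul hO hg (inv_mem hg)
  rw [mul_inv_cancel, chi_one hO] at h
  linarith

theorem chi_conj (hO : Gd W O) {g h : Γ} (hg : g ∈ stb (Γ := Γ) O) (hh : h ∈ stb (Γ := Γ) O) :
    chi W O (h * g * h⁻¹) = chi W O g := by
  rw [chi_mul hO (mul_mem hh hg) (inv_mem hh), chi_mul hO hh hg, chi_inv hO hh]
  ring

theorem chi_s (hO : Gd W O) {i : ℕ} (hi : i + 2 < k) (h0 : W.s i ∈ stb (Γ := Γ) O)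
    (h1 : W.s (i + 1) ∈ stb (Γ := Γ) O) : chi W O (W.s (i + 1)) = chi W O (W.s i) := by
  have h := congrArg (chi W O) (W.braid i hi)
  rw [chi_mul hO (mul_mem h0 h1) h0, chi_mul hO h0 h1, chi_mul hO (mul_mem h1 h0) h1,
    chi_mul hO h1 h0] at h
  linarith

/-- all `s i` with `c ≤ i`, `i + 1 < n` have the same `chi`. -/
theorem chi_s_eq (hO : Gd W O) {c n : ℕ} (hn : n ≤ k)
    (hs : ∀ i, c ≤ i → i + 1 < n → W.s i ∈ stb (Γ := Γ) O) (i : ℕ) (h1 : c ≤ i) (h2 : i + 1 < n) :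
    chi W O (W.s i) = chi W O (W.s c) := by
  induction i, h1 using Nat.le_induction with
  | base => rfl
  | succ i hi ih =>
    rw [chi_s hO (by omega) (hs i hi (by omega)) (hs (i + 1) (by omega) h2), ih (by omega)]

theorem lam_succ (W : WSys k Γ F) (m : ℕ) (hm : 1 ≤ m) : W.lam (m + 1) = W.s m * W.lam m * W.s m := by
  obtain ⟨m, rfl⟩ : ∃ m', m = m' + 1 := ⟨m - 1, by omega⟩
  rfl

theorem T_succ (W : WSys k Γ F) (m : ℕ) (hm : 1 ≤ m) : W.T (m + 1) = W.T m * W.lam m := by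
  obtain ⟨m, rfl⟩ : ∃ m', m = m' + 1 := ⟨m - 1, by omega⟩
  rfl

theorem lam_mem {S : Subgroup Γ} {c n : ℕ} (hc : 1 ≤ c) (h0 : W.lam c ∈ S)
    (hs : ∀ i, c ≤ i → i + 1 < n → W.s i ∈ S) (m : ℕ) (h1 : c ≤ m) (h2 : m < n) : W.lam m ∈ S := by
  induction m, h1 using Nat.le_induction with
  | base => exact h0
  | succ m hm ih =>
    rw [lam_succ W m (by omega)]
    exact mul_mem (mul_mem (hs m hm h2) (ih (by omega))) (hs m hm h2)

theorem T_mem {S : Subgroup Γ} {c n : ℕ} (hc : 1 ≤ c) (h0 : W.lam c ∈ S) (hT : W.T c ∈ S)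
    (hs : ∀ i, c ≤ i → i + 1 < n → W.s i ∈ S) (j : ℕ) (h1 : c ≤ j) (h2 : j ≤ n) : W.T j ∈ S := by
  induction j, h1 using Nat.le_induction with
  | base => exact hT
  | succ j hj ih =>
    rw [T_succ W j (by omega)]
    exact mul_mem (ih (by omega)) (lam_mem hc h0 hs j hj (by omega))

theorem chi_lam (hO : Gd W O) {c n : ℕ} (hc : 1 ≤ c) (hn : n ≤ k) (h0 : W.lam c ∈ stb (Γ := Γ) O)
    (hs : ∀ i, c ≤ i → i + 1 < n → W.s i ∈ stb (Γ := Γ) O) (m : ℕ) (h1 : c ≤ m) (h2 : m < n) :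
    chi W O (W.lam m) = chi W O (W.lam c) + 2 * ((m : ℝ) - c) * chi W O (W.s c) := by
  induction m, h1 using Nat.le_induction with
  | base => ring
  | succ m hm ih =>
    have hl := lam_mem hc h0 hs m hm (by omega)
    have hsm := hs m hm h2
    rw [lam_succ W m (by omega), chi_mul hO (mul_mem hsm hl) hsm, chi_mul hO hsm hl, ih (by omega),
      chi_s_eq hO hn hs m hm h2]
    push_cast
    ring

/-- the general sum rule. -/
theorem chi_T (hO : Gd W O) {c n : ℕ} (hc : 1 ≤ c) (hn : n ≤ k) (h0 : W.lam c ∈ stb (Γ := Γ) O)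
    (hT : W.T c ∈ stb (Γ := Γ) O)
    (hs : ∀ i, c ≤ i → i + 1 < n → W.s i ∈ stb (Γ := Γ) O) (j : ℕ) (h1 : c ≤ j) (h2 : j ≤ n) :
    chi W O (W.T j) = chi W O (W.T c) + ((j : ℝ) - c) * chi W O (W.lam c) +
      ((j : ℝ) - c) * ((j : ℝ) - c - 1) * chi W O (W.s c) := by
  induction j, h1 using Nat.le_induction with
  | base => ring
  | succ j hj ih =>
    rw [T_succ W j (by omega), chi_mul hO (T_mem hc h0 hT hs j hj (by omega))
      (lam_mem hc h0 hs j hj (by omega)), ih (by omega), chi_lam hO hc hn h0 hs j hj (by omega)]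
    push_cast
    ring

/-- sets stable under the first `j` strands. -/
theorem chi_B (hO : Gd W O) {n : ℕ} (hn : n ≤ k) (hn2 : 2 ≤ n) (hB : W.Bm n ≤ stb (Γ := Γ) O)
    (j : ℕ) (h1 : 1 ≤ j) (h2 : j ≤ n) :
    chi W O (W.T j) = (j : ℝ) * ((j : ℝ) - 1) * chi W O (W.s 0) := by
  have hs : ∀ i, i + 1 < n → W.s i ∈ stb (Γ := Γ) O := fun i hi =>
    hB (Subgroup.subset_closure ⟨i, hi, rfl⟩)
  have h0 : W.s 0 ∈ stb (Γ := Γ) O := hs 0 (by omega)
  have hl : W.lam 1 ∈ stb (Γ := Γ) O := mul_mem h0 h0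
  have hT : W.T 1 ∈ stb (Γ := Γ) O := one_mem _
  have hc1 : chi W O (W.T 1) = 0 := chi_one hO
  have hc2 : chi W O (W.lam 1) = 2 * chi W O (W.s 0) := by
    change chi W O (W.s 0 * W.s 0) = _
    rw [chi_mul hO h0 h0]
    ring
  have hc3 : ((j : ℝ) - 1) * ((j : ℝ) - 1 - 1) * chi W O (W.s 1) =
      ((j : ℝ) - 1) * ((j : ℝ) - 1 - 1) * chi W O (W.s 0) := by
    rcases Nat.lt_or_ge j 3 with h3 | h3
    · have h4 : j = 1 ∨ j = 2 := by omega
      rcases h4 with rfl | rfl <;> norm_num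
    · rw [chi_s hO (by omega) h0 (hs 1 (by omega))]
  rw [chi_T hO le_rfl hn hl hT (fun i _ hi => hs i hi) j h1 h2, hc1, hc2]
  push_cast
  rw [hc3]
  ring

/-- `chi (lam m)` for sets stable under the first strands. -/
theorem chi_B_lam (hO : Gd W O) {n : ℕ} (hn : n ≤ k) (hn2 : 2 ≤ n) (hB : W.Bm n ≤ stb (Γ := Γ) O)
    (m : ℕ) (h1 : 1 ≤ m) (h2 : m < n) : chi W O (W.lam m) = 2 * (m : ℝ) * chi W O (W.s 0) := by
  have hs : ∀ i, i + 1 < n → W.s i ∈ stb (Γ := Γ) O := fun i hi =>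
    hB (Subgroup.subset_closure ⟨i, hi, rfl⟩)
  have h0 : W.s 0 ∈ stb (Γ := Γ) O := hs 0 (by omega)
  have hl : W.lam 1 ∈ stb (Γ := Γ) O := mul_mem h0 h0
  have hc2 : chi W O (W.lam 1) = 2 * chi W O (W.s 0) := by
    change chi W O (W.s 0 * W.s 0) = _
    rw [chi_mul hO h0 h0]
    ring
  have hc3 : 2 * ((m : ℝ) - 1) * chi W O (W.s 1) = 2 * ((m : ℝ) - 1) * chi W O (W.s 0) := by
    rcases Nat.lt_or_ge m 2 with h3 | h3
    · have h4 : m = 1 := by omega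
      subst h4
      norm_num
    · rw [chi_s hO (by omega) h0 (hs 1 (by omega))]
  rw [chi_lam hO le_rfl hn hl (fun i _ hi => hs i hi) m h1 h2, hc2]
  push_cast
  rw [hc3]
  ring

/-- sets stable under `L`. -/
theorem chi_L (hO : Gd W O) (hL : W.L ≤ stb (Γ := Γ) O) (j : ℕ) (h1 : 2 ≤ j) (h2 : j ≤ k) :
    chi W O (W.T j) = 2 * chi W O (W.s 0) + ((j : ℝ) - 2) * chi W O (W.lam 2) +
      ((j : ℝ) - 2) * ((j : ℝ) - 3) * chi W O (W.s 2) := by
  have h0 : W.s 0 ∈ stb (Γ := Γ) O := hL (Subgroup.subset_closure (Or.inl (Or.inl rfl)))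
  have hl : W.lam 2 ∈ stb (Γ := Γ) O := hL (Subgroup.subset_closure (Or.inl (Or.inr rfl)))
  have hs : ∀ i, 2 ≤ i → i + 1 < k → W.s i ∈ stb (Γ := Γ) O := fun i hi hi2 =>
    hL (Subgroup.subset_closure (Or.inr ⟨i, hi, hi2, rfl⟩))
  have hT2 : W.T 2 = W.s 0 * W.s 0 := by
    change 1 * (W.s 0 * W.s 0) = _
    rw [one_mul]
  have hT : W.T 2 ∈ stb (Γ := Γ) O := by
    rw [hT2]
    exact mul_mem h0 h0
  have hc1 : chi W O (W.T 2) = 2 * chi W O (W.s 0) := by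
    rw [hT2, chi_mul hO h0 h0]
    ring
  rw [chi_T hO (by norm_num) le_rfl hl hT hs j h1 h2, hc1]
  push_cast
  ring

/-- `chi (lam m)` for sets stable under `L`. -/
theorem chi_L_lam (hO : Gd W O) (hL : W.L ≤ stb (Γ := Γ) O) (m : ℕ) (h1 : 2 ≤ m) (h2 : m < k) :
    chi W O (W.lam m) = chi W O (W.lam 2) + 2 * ((m : ℝ) - 2) * chi W O (W.s 2) := by
  have hl : W.lam 2 ∈ stb (Γ := Γ) O := hL (Subgroup.subset_closure (Or.inl (Or.inr rfl)))
  have hs : ∀ i, 2 ≤ i → i + 1 < k → W.s i ∈ stb (Γ := Γ) O := fun i hi hi2 =>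
    hL (Subgroup.subset_closure (Or.inr ⟨i, hi, hi2, rfl⟩))
  rw [chi_lam hO (by norm_num) le_rfl hl hs m h1 h2]
  push_cast
  ring

/-- sets stable under `L3`. -/
theorem chi_L3 (hO : Gd W O) (hL : W.L3 ≤ stb (Γ := Γ) O) (j : ℕ) (h1 : 3 ≤ j) (h2 : j ≤ k) :
    chi W O (W.T j) = chi W O (W.T 3) + ((j : ℝ) - 3) * chi W O (W.lam 3) +
      ((j : ℝ) - 3) * ((j : ℝ) - 4) * chi W O (W.s 3) := by
  have h0 : W.s 0 ∈ stb (Γ := Γ) O := hL (Subgroup.subset_closure (Or.inl (Or.inl rfl)))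
  have h1' : W.s 1 ∈ stb (Γ := Γ) O := hL (Subgroup.subset_closure (Or.inl (Or.inr (Or.inl rfl))))
  have hl : W.lam 3 ∈ stb (Γ := Γ) O := hL (Subgroup.subset_closure (Or.inl (Or.inr (Or.inr rfl))))
  have hs : ∀ i, 3 ≤ i → i + 1 < k → W.s i ∈ stb (Γ := Γ) O := fun i hi hi2 =>
    hL (Subgroup.subset_closure (Or.inr ⟨i, hi, hi2, rfl⟩))
  have hT : W.T 3 ∈ stb (Γ := Γ) O := by
    change 1 * (W.s 0 * W.s 0) * (W.s 1 * (W.s 0 * W.s 0) * W.s 1) ∈ stb (Γ := Γ) O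
    exact mul_mem (mul_mem (one_mem _) (mul_mem h0 h0)) (mul_mem (mul_mem h1' (mul_mem h0 h0)) h1')
  rw [chi_T hO (by norm_num) le_rfl hl hT hs j h1 h2]
  push_cast
  ring

theorem chi_T3 (hO : Gd W O) (hk : 3 ≤ k) (h0 : W.s 0 ∈ stb (Γ := Γ) O) (h1 : W.s 1 ∈ stb (Γ := Γ) O) :
    chi W O (W.T 3) = 6 * chi W O (W.s 0) := by
  have hB : W.Bm 3 ≤ stb (Γ := Γ) O := by
    unfold WSys.Bm
    rw [Subgroup.closure_le]
    rintro g ⟨i, hi, rfl⟩
    have h2 : i = 0 ∨ i = 1 := by omega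
    rcases h2 with rfl | rfl
    · exact h0
    · exact h1
  rw [chi_B hO hk (by norm_num) hB 3 (by norm_num) le_rfl]
  push_cast
  ring

theorem lam4_eq (W : WSys k Γ F) : W.lam 4 = W.zeta * W.zeta' := by
  change W.s 3 * (W.s 2 * W.lam 2 * W.s 2) * W.s 3 = _
  unfold WSys.zeta WSys.zeta' WSys.gg
  group

/-- sets stable under `H`. -/
theorem chi_H (hO : Gd W O) (hL : W.H ≤ stb (Γ := Γ) O) (j : ℕ) (h1 : 4 ≤ j) (h2 : j ≤ k) :
    chi W O (W.T j) = chi W O (W.T 4) + ((j : ℝ) - 4) * (chi W O W.zeta + chi W O W.zeta') +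
      ((j : ℝ) - 4) * ((j : ℝ) - 5) * chi W O (W.s 4) := by
  have hT : W.T 4 ∈ stb (Γ := Γ) O :=
    hL (Subgroup.subset_closure (Or.inl (Or.inr (Or.inr (Or.inl rfl)))))
  have hz : W.zeta ∈ stb (Γ := Γ) O :=
    hL (Subgroup.subset_closure (Or.inl (Or.inr (Or.inr (Or.inr (Or.inl rfl))))))
  have hz' : W.zeta' ∈ stb (Γ := Γ) O :=
    hL (Subgroup.subset_closure (Or.inl (Or.inr (Or.inr (Or.inr (Or.inr rfl))))))
  have hs : ∀ i, 4 ≤ i → i + 1 < k → W.s i ∈ stb (Γ := Γ) O := fun i hi hi2 =>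
    hL (Subgroup.subset_closure (Or.inr ⟨i, hi, hi2, rfl⟩))
  have hl : W.lam 4 ∈ stb (Γ := Γ) O := by
    rw [lam4_eq]
    exact mul_mem hz hz'
  have hc : chi W O (W.lam 4) = chi W O W.zeta + chi W O W.zeta' := by
    rw [lam4_eq, chi_mul hO hz hz']
  rw [chi_T hO (by norm_num) le_rfl hl hT hs j h1 h2, hc]
  push_cast
  ring

end Chi
end LN6
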