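import Pool.Agent.Helper32.LN6.ChiF

/-!
# LN6 leaf E5 (MP_730da0_ag): averages
-/

open scoped Classical
open Finset

namespace LN6
namespace WSys

variable {k : ℕ} {Γ F : Type} [Group Γ] [MulAction Γ F] [Fintype F] {W : WSys k Γ F} {b : ℝ}

/-- On an `L`-stable set of pairs with `v (s 0) = v (s 2) = 0`: averages of `v (T j)`. -/
theorem Ax.avg_of (A : W.Ax b) {O : Finset (F × F)} (hO : W.Good O) (hL : W.L ≤ stab Γ O)
    (h0 : ∀ p ∈ O, W.v (W.s 0) p.1 p.2 = 0) (h2 : ∀ p ∈ O, W.v (W.s 2) p.1 p.2 = 0) (j : ℕ)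
    (hj : 2 ≤ j) (hjk : j ≤ k) :
    ((k : ℝ) - 2) * W.chi O (W.T j) = ((j : ℝ) - 2) * b * O.card := by
  have hk := A.k5
  have e0 : W.chi O (W.s 0) = 0 := sum_eq_zero h0
  have e2 : W.chi O (W.s 2) = 0 := sum_eq_zero h2
  have e1 := chi_T_L hO hL k (by omega) le_rfl
  have e3 := chi_T_L hO hL j hj hjk
  rw [e0, e2, chi_T_k A hO] at e1
  rw [e0, e2] at e3
  rw [e3]
  linear_combination -((j : ℝ) - 2) * e1

theorem SAV_of (A : W.Ax b) (hF3 : W.SF3) : W.SAV b := by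
  intro O hL hO j hj hjk
  have hk := A.k5
  have hg : W.Good O := fun p hp =>
    ⟨(hO p hp).2.2, fun h => (hO p hp).1 (h ▸ (hO p hp).2.1)⟩
  have hE : ∀ p ∈ O, ¬ W.E (W.s 0) p.2 p.1 := fun p hp h =>
    (hO p hp).1 (A.B_of_E W.arc_s0 h (hO p hp).2.1)
  refine A.avg_of hg (le_stab_of hL) ?_ ?_ j hj hjk
  · intro p hp
    rw [W.v_symm]
    exact A.v_zero_of_not_E W.arc_s0 (W.R_symm (hO p hp).2.2) (hE p hp)
  · intro p hp
    rw [W.v_symm]
    exact hF3 2 le_rfl (by omega) p.2 (hO p hp).2.1 p.1 (W.R_symm (hO p hp).2.2) (hE p hp)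

end WSys
end LN6
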