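import Pool.Agent.Helper26.LN6.Vm
import Pool.Agent.Helper32.LN6.AV

/-!
# LN6 leaf D3 (MP_730da0_ag): uniqueness of the largest class

Only `V = v (T 3)` is used.  If a block contains two largest classes of `s 0`, every largest class has a partner in its
block, `V = b/(k-2) =: w` between them (average over the `L`-orbit, `V` is constant on it), `V x z ≤ w` for `x` in a
largest class and `z` outside (else the class of some translate of `x` is too large), the average over the `L`-orbit of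
`(x, z)` is `w`, so `V x z = w`; but `V x z = 0` for `z` in a largest class of `s 3`.
-/

open scoped Classical
open Finset

namespace LN6
namespace WSys

variable {k : ℕ} {Γ F : Type} [Group Γ] [MulAction Γ F] [Fintype F] {W : WSys k Γ F} {b : ℝ}

/-- `B (s 0)` and `B (s 3)` are disjoint. -/
theorem not_B3 (hk : 5 ≤ k) (hF2 : W.SF2) {x : F} (hx : x ∈ W.B (W.s 0)) : x ∉ W.B (W.s 3) := by
  intro h
  have e : W.s 3 = (W.s 2 * W.s 3) * W.s 2 * (W.s 2 * W.s 3)⁻¹ := W.s_succ_conj 2 (by omega)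
  have hc : (W.s 2 * W.s 3)⁻¹ * W.s 0 = W.s 0 * (W.s 2 * W.s 3)⁻¹ :=
    ((W.commute_s 0 2 (by omega) (by omega)).mul_right
      (W.commute_s 0 3 (by omega) (by omega))).inv_right.symm.eq
  rw [e, B_conj'] at h
  exact hF2 ((W.s 2 * W.s 3)⁻¹ • x) ((B_smul hc x).2 hx) h

/-- `V 3` between two largest classes is invariant under `L`. -/
theorem Ax.V3_const (A : W.Ax b) (hT : W.STrB) {g : Γ} (hg : g ∈ W.L) : ∀ x y : F,
    x ∈ W.B (W.s 0) → y ∈ W.B (W.s 0) → W.R x y → ¬ W.E (W.s 0) x y →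
    W.v (W.T 3) (g • x) (g • y) = W.v (W.T 3) x y := by
  have hk := A.k5
  have hcL : ∀ g ∈ W.L, g * W.s 0 = W.s 0 * g := fun g hg => (W.L_commute_s0 (by omega) hg).eq
  refine Subgroup.closure_induction (p := fun g _ => ∀ x y : F,
    x ∈ W.B (W.s 0) → y ∈ W.B (W.s 0) → W.R x y → ¬ W.E (W.s 0) x y →
    W.v (W.T 3) (g • x) (g • y) = W.v (W.T 3) x y) ?_ ?_ ?_ ?_ hg
  · intro g hg x y hx hy hR hE
    have hn : x ≠ y := fun h => hE (Or.inl h)
    rcases hg with (hg | hg) | ⟨i, hi, hik, hg⟩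
    · rw [hg]
      exact T_smul_Bm (by omega) (W.s_mem_Bm (by omega)) hR hn
    · have hg' : g = W.lam 2 := hg
      rw [hg']
      exact T_smul_Bm (by omega) (W.lam_mem_Bm 2) hR hn
    · rw [hg]
      rcases Nat.lt_or_ge i 3 with h3 | h3
      · have : i = 2 := by omega
        subst this
        have e1 : W.v (W.T 3) (W.s 0 • x) (W.s 0 • y) = W.v (W.T 3) x y :=
          T_smul_Bm (by omega) (W.s_mem_Bm (by omega)) hR hn
        have hR0 : W.R (W.s 0 • x) (W.s 0 • y) := W.R_smul _ hR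
        have hE0 : ¬ W.E (W.s 0) (W.s 0 • x) (W.s 0 • y) := fun h => hE ((W.E_smul rfl).1 h)
        have tx := hT 2 le_rfl hik x hx
        have ty := hT 2 le_rfl hik y hy
        -- replace `s 0 • x` by `s 2 • x`
        have e2 : W.v (W.T 3) (W.s 2 • x) (W.s 0 • y) = W.v (W.T 3) (W.s 0 • x) (W.s 0 • y) :=
          A.CC le_rfl (by omega) (i := 0) (by omega) tx hR0 hE0
        have hE1 : ¬ W.E (W.s 0) (W.s 0 • y) (W.s 2 • x) := fun h =>
          hE0 (A.E_trans W.arc_s0 tx h.symm)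
        have hR1 : W.R (W.s 0 • y) (W.s 2 • x) := W.R_trans (W.R_symm hR0) tx.toR
        have e3 : W.v (W.T 3) (W.s 2 • y) (W.s 2 • x) = W.v (W.T 3) (W.s 0 • y) (W.s 2 • x) :=
          A.CC le_rfl (by omega) (i := 0) (by omega) ty hR1 hE1
        rw [W.v_symm, e3, W.v_symm, e2, e1]
      · exact T_smul_s (by omega) hik (by omega) hR hn
  · intro x y hx hy hR hE
    rw [one_smul, one_smul]
  · intro g h hg hh ihg ihh x y hx hy hR hE
    have hgL : g ∈ W.L := hg
    have hhL : h ∈ W.L := hh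
    rw [mul_smul, mul_smul, ihg _ _ ((B_smul (hcL h hhL) x).2 hx) ((B_smul (hcL h hhL) y).2 hy)
      (W.R_smul h hR) (fun he => hE ((W.E_smul (hcL h hhL)).1 he)), ihh _ _ hx hy hR hE]
  · intro g hg ih x y hx hy hR hE
    have hgL : g⁻¹ ∈ W.L := inv_mem (show g ∈ W.L from hg)
    have h := ih _ _ ((B_smul (hcL _ hgL) x).2 hx) ((B_smul (hcL _ hgL) y).2 hy)
      (W.R_smul g⁻¹ hR) (fun he => hE ((W.E_smul (hcL _ hgL)).1 he))
    rw [smul_inv_smul, smul_inv_smul] at h
    exact h.symm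

/-- the orbit of a pair with first point in a largest class and second point outside of it. -/
theorem Ax.avg3 (A : W.Ax b) (hF3 : W.SF3) {x z : F} (hx : x ∈ W.B (W.s 0)) (hR : W.R x z)
    (hE : ¬ W.E (W.s 0) x z) :
    ((k : ℝ) - 2) * W.chi (orb W.L x z) (W.T 3) = b * (orb W.L x z).card := by
  have hk := A.k5
  have hn : x ≠ z := fun h => hE (Or.inl h)
  have hcL : ∀ g ∈ W.L, g * W.s 0 = W.s 0 * g := fun g hg => (W.L_commute_s0 (by omega) hg).eq
  have h := A.avg_of (W.good_orb W.L hR hn) (le_stab_orb W.L x z) ?_ ?_ 3 (by norm_num) (by omega)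
  · rw [h]
    push_cast
    ring
  · intro p hp
    obtain ⟨g, hg, rfl⟩ := mem_orb.1 hp
    exact A.v_zero_of_not_E W.arc_s0 (W.R_smul g hR) fun he => hE ((W.E_smul (hcL g hg)).1 he)
  · intro p hp
    obtain ⟨g, hg, rfl⟩ := mem_orb.1 hp
    exact hF3 2 le_rfl (by omega) (g • x) ((B_smul (hcL g hg) x).2 hx) (g • z) (W.R_smul g hR)
      fun he => hE ((W.E_smul (hcL g hg)).1 he)

/-- a value of `V 3` outside the class which is larger than a positive one is impossible. -/
theorem Ax.V3_le (A : W.Ax b) {x x' z : F} (hx : x ∈ W.B (W.s 0)) (hR' : W.R x x') (hE' : ¬ W.E (W.s 0) x x')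
    (hp : 0 < W.v (W.T 3) x x') (hR : W.R x z) (hE : ¬ W.E (W.s 0) x z) :
    W.v (W.T 3) x z ≤ W.v (W.T 3) x x' := by
  by_contra hcon
  push Not at hcon
  have hk := A.k5
  have hn' : x ≠ x' := fun h => hE' (Or.inl h)
  obtain ⟨g, hg, hgp⟩ := A.exists_of_T_pos (by omega) hR' hn' hp
  -- the class of `g x` contains `g (cl x)` and `g x'`
  have hsub : insert (g • x') ((W.cl (W.s 0) x).image (g • ·)) ⊆ W.cl (W.s 0) (g • x) := by
    intro u hu
    rw [mem_insert, mem_image] at hu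
    rw [mem_cl]
    rcases hu with rfl | ⟨y, hy, rfl⟩
    · exact E_of_pos (W.R_smul g hR') hgp
    · rw [mem_cl] at hy
      by_cases hxy : x = y
      · exact Or.inl (by rw [hxy])
      · have hyx' : y ≠ x' := fun h => hE' (h ▸ hy)
        have h1 : W.v (W.T 3) x z ≤ W.v (W.T 3) x y :=
          A.nest_le le_rfl (by omega) (i := 0) (by omega) hy hxy hR hE
        have h2 := A.nest 3 le_rfl (by omega) (g • x) (g • y) (g • x') (W.R_smul g hy.toR)
          (W.R_smul g hR') (by simpa using hxy) (by simpa using hn') (by simpa using hyx')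
        rw [T_smul_Bm (by omega) hg hy.toR hxy, T_smul_Bm (by omega) hg hR' hn'] at h2
        have h3 : 0 < W.v (W.T 3) x y - W.v (W.T 3) x x' := by linarith
        have h4 := nonneg_of_mul_nonneg_left h2 h3
        exact E_of_pos (W.R_smul g hy.toR) (by linarith)
  have hnot : g • x' ∉ (W.cl (W.s 0) x).image (g • ·) := by
    intro h
    obtain ⟨y, hy, hyx⟩ := mem_image.1 h
    have : y = x' := by simpa using hyx
    rw [mem_cl] at hy
    exact hE' (this ▸ hy)
  refine not_subset_of_card W.arc_s0 hsub ?_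
  rw [card_insert_of_notMem hnot, card_image_of_injective _ (MulAction.injective g)]
  have : (W.cl (W.s 0) x).card = W.r := hx
  omega

theorem SOne_of (A : W.Ax b) (hb : 0 < b) (hF3 : W.SF3) (hT : W.STrB) (hF3' : W.SF3') (hF2 : W.SF2) :
    W.SOne := by
  have hk := A.k5
  intro x y hx hy hR
  by_contra hE
  have hkr : (0 : ℝ) < (k : ℝ) - 2 := by
    have : (5 : ℝ) ≤ k := by exact_mod_cast hk
    linarith
  have hcL : ∀ g ∈ W.L, g * W.s 0 = W.s 0 * g := fun g hg => (W.L_commute_s0 (by omega) hg).eq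
  -- every largest class has a partner in its block
  have hpart : ∀ u, u ∈ W.B (W.s 0) → ∃ u', u' ∈ W.B (W.s 0) ∧ W.R u u' ∧ ¬ W.E (W.s 0) u u' := by
    intro u hu
    obtain ⟨j, hj⟩ := A.blk x u
    have hc : W.s 0 ^ j * W.s 0 = W.s 0 * W.s 0 ^ j := ((Commute.refl (W.s 0)).pow_left j).eq
    have hx1 := (B_smul hc x).2 hx
    have hy1 := (B_smul hc y).2 hy
    have hR1 := W.R_smul (W.s 0 ^ j) hR
    have hE1 : ¬ W.E (W.s 0) (W.s 0 ^ j • x) (W.s 0 ^ j • y) := fun h => hE ((W.E_smul hc).1 h)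
    by_cases hu1 : W.E (W.s 0) u (W.s 0 ^ j • x)
    · exact ⟨_, hy1, W.R_trans (W.R_symm hj) hR1, fun h => hE1 (A.E_trans W.arc_s0 hu1.symm h)⟩
    · exact ⟨_, hx1, W.R_symm hj, hu1⟩
  -- `V 3 = w` between partners
  have hw : ∀ u u', u ∈ W.B (W.s 0) → u' ∈ W.B (W.s 0) → W.R u u' → ¬ W.E (W.s 0) u u' →
      W.v (W.T 3) u u' = b / ((k : ℝ) - 2) := by
    intro u u' hu hu' hRu hEu
    have h1 := A.avg3 hF3 hu hRu hEu
    have h2 : W.chi (orb W.L u u') (W.T 3) = (orb W.L u u').card * W.v (W.T 3) u u' := by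
      unfold chi
      rw [sum_congr rfl (g := fun _ => W.v (W.T 3) u u')]
      · simp
      · intro p hp
        obtain ⟨g, hg, rfl⟩ := mem_orb.1 hp
        exact A.V3_const hT hg _ _ hu hu' hRu hEu
    have h3 : (0 : ℝ) < (orb W.L u u').card := by exact_mod_cast orb_card_pos W.L u u'
    rw [h2] at h1
    rw [eq_div_iff hkr.ne']
    have h4 : ((orb W.L u u').card : ℝ) * (W.v (W.T 3) u u' * ((k : ℝ) - 2)) =
        (orb W.L u u').card * b := by linear_combination h1
    exact mul_left_cancel₀ h3.ne' h4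
  have hwpos : 0 < b / ((k : ℝ) - 2) := div_pos hb hkr
  -- upper bound
  have hle : ∀ u z, u ∈ W.B (W.s 0) → W.R u z → ¬ W.E (W.s 0) u z →
      W.v (W.T 3) u z ≤ b / ((k : ℝ) - 2) := by
    intro u z hu hRz hEz
    obtain ⟨u', hu', hRu, hEu⟩ := hpart u hu
    have h1 := hw u u' hu hu' hRu hEu
    rw [← h1]
    exact A.V3_le hu hRu hEu (by rw [h1]; exact hwpos) hRz hEz
  -- a point in a largest class of `s 3`
  have harc3 : W.Arc (W.s 3) := W.arc_s 3 (by omega)
  obtain ⟨z, hz, hRz⟩ := A.exists_B harc3 x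
  have hEz : ¬ W.E (W.s 0) x z := fun h => not_B3 hk hF2 (A.B_of_E W.arc_s0 h hx) hz
  have hEz3 : ¬ W.E (W.s 3) z x := fun h => not_B3 hk hF2 hx (A.B_of_E harc3 h hz)
  have h0 : W.v (W.T 3) x z = 0 := by
    rw [W.v_symm]
    exact hF3' 3 3 (by norm_num) le_rfl (by omega) z hz x (W.R_symm hRz) hEz3
  -- all values on the orbit are `w`
  have h1 := A.avg3 hF3 hx hRz hEz
  have h2 : W.chi (orb W.L x z) (W.T 3) = ∑ _p ∈ orb W.L x z, b / ((k : ℝ) - 2) := by
    rw [sum_const, nsmul_eq_mul, mul_div_assoc', eq_div_iff hkr.ne']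
    linear_combination h1
  have h3 : ∀ p ∈ orb W.L x z, W.v (W.T 3) p.1 p.2 ≤ b / ((k : ℝ) - 2) := by
    intro p hp
    obtain ⟨g, hg, rfl⟩ := mem_orb.1 hp
    exact hle _ _ ((B_smul (hcL g hg) x).2 hx) (W.R_smul g hRz) fun he => hEz ((W.E_smul (hcL g hg)).1 he)
  have h4 := (sum_eq_sum_iff_of_le h3).1 h2 _ (self_mem_orb W.L x z)
  simp only [h0] at h4
  linarith

end WSys
end LN6
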