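import Pool.Agent.Helper26.LN6.Chi0
import Pool.Agent.Helper32.LN6.Chi

/-!
# LN6 leaf C (MP_730da0_ag): the chi formulas in the notation of Helper26/LN6/Chi0
-/

open scoped Classical
open Finset

namespace LN6
namespace WSys

variable {k : ℕ} {Γ F : Type} [Group Γ] [MulAction Γ F] {W : WSys k Γ F} {O : Finset (F × F)}

theorem le_stb {S : Subgroup Γ} (h : S ≤ stab Γ O) : S ≤ Chi.stb (Γ := Γ) O :=
  fun _ hg p hp => (h hg p).2 hp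

/-- `B_n`-stable sets: `chi (T j) = j (j-1) chi (s 0)`. -/
theorem chi_T_Bn (hO : W.Good O) {n : ℕ} (hn : n ≤ k) (hn2 : 2 ≤ n) (hB : W.Bm n ≤ stab Γ O)
    (j : ℕ) (h1 : 1 ≤ j) (h2 : j ≤ n) :
    W.chi O (W.T j) = (j : ℝ) * ((j : ℝ) - 1) * W.chi O (W.s 0) :=
  Chi.chi_B hO hn hn2 (le_stb hB) j h1 h2

theorem chi_lam_Bn (hO : W.Good O) {n : ℕ} (hn : n ≤ k) (hn2 : 2 ≤ n) (hB : W.Bm n ≤ stab Γ O)
    (m : ℕ) (h1 : 1 ≤ m) (h2 : m < n) : W.chi O (W.lam m) = 2 * (m : ℝ) * W.chi O (W.s 0) :=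
  Chi.chi_B_lam hO hn hn2 (le_stb hB) m h1 h2

/-- `L`-stable sets. -/
theorem chi_T_L (hO : W.Good O) (hL : W.L ≤ stab Γ O) (j : ℕ) (h1 : 2 ≤ j) (h2 : j ≤ k) :
    W.chi O (W.T j) = 2 * W.chi O (W.s 0) + ((j : ℝ) - 2) * W.chi O (W.lam 2) +
      ((j : ℝ) - 2) * ((j : ℝ) - 3) * W.chi O (W.s 2) :=
  Chi.chi_L hO (le_stb hL) j h1 h2

theorem chi_lam_L (hO : W.Good O) (hL : W.L ≤ stab Γ O) (m : ℕ) (h1 : 2 ≤ m) (h2 : m < k) :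
    W.chi O (W.lam m) = W.chi O (W.lam 2) + 2 * ((m : ℝ) - 2) * W.chi O (W.s 2) :=
  Chi.chi_L_lam hO (le_stb hL) m h1 h2

/-- `L3`-stable sets. -/
theorem chi_T_L3 (hO : W.Good O) (hL : W.L3 ≤ stab Γ O) (j : ℕ) (h1 : 3 ≤ j) (h2 : j ≤ k) :
    W.chi O (W.T j) = W.chi O (W.T 3) + ((j : ℝ) - 3) * W.chi O (W.lam 3) +
      ((j : ℝ) - 3) * ((j : ℝ) - 4) * W.chi O (W.s 3) :=
  Chi.chi_L3 hO (le_stb hL) j h1 h2

theorem chi_T3 (hO : W.Good O) (hk : 3 ≤ k) (h0 : W.s 0 ∈ stab Γ O) (h1 : W.s 1 ∈ stab Γ O) :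
    W.chi O (W.T 3) = 6 * W.chi O (W.s 0) :=
  Chi.chi_T3 hO hk (fun p hp => (h0 p).2 hp) (fun p hp => (h1 p).2 hp)

/-- `H`-stable sets. -/
theorem chi_T_H (hO : W.Good O) (hL : W.H ≤ stab Γ O) (j : ℕ) (h1 : 4 ≤ j) (h2 : j ≤ k) :
    W.chi O (W.T j) = W.chi O (W.T 4) + ((j : ℝ) - 4) * (W.chi O W.zeta + W.chi O W.zeta') +
      ((j : ℝ) - 4) * ((j : ℝ) - 5) * W.chi O (W.s 4) :=
  Chi.chi_H hO (le_stb hL) j h1 h2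

/-- general form: sets stable under `lam c`, `T c` and `s i`, `c ≤ i`, `i + 1 < n`. -/
theorem chi_T_gen (hO : W.Good O) {c n : ℕ} (hc : 1 ≤ c) (hn : n ≤ k) (h0 : W.lam c ∈ stab Γ O)
    (hT : W.T c ∈ stab Γ O) (hs : ∀ i, c ≤ i → i + 1 < n → W.s i ∈ stab Γ O) (j : ℕ) (h1 : c ≤ j)
    (h2 : j ≤ n) :
    W.chi O (W.T j) = W.chi O (W.T c) + ((j : ℝ) - c) * W.chi O (W.lam c) +
      ((j : ℝ) - c) * ((j : ℝ) - c - 1) * W.chi O (W.s c) :=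
  Chi.chi_T hO hc hn (fun p hp => (h0 p).2 hp) (fun p hp => (hT p).2 hp)
    (fun i hi hi2 p hp => (hs i hi hi2 p).2 hp) j h1 h2

end WSys
end LN6
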